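import Mathlib
import Pool.Agent.H60.CritDefs

namespace Pool.Agent.Results.MP_71efc4_nt.Counter

open Pool.Agent.H60.Crit

/-- In `ℤ / 10` the set `{1, 3, 4, 8}` is a P4-set but not a P2-set. -/
theorem result : ∃ A : Finset (ZMod 10), IsP4 (ZMod 10) A ∧ ¬ IsP2 (ZMod 10) A := by
  have h1 : ∀ A : Finset (ZMod 10), (0 : ZMod 10) ∉ A → A.card = 5 →
      sumsStar (ZMod 10) A = Finset.univ := by
    decide +kernel
  have h2 : sumsStar (ZMod 10) {1, 3, 4, 8} ≠ Finset.univ := by decide +kernel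
  have h3 : c (ZMod 10) = 5 := by
    refine IsLeast.csInf_eq ⟨fun A h0 hA => ?_, fun m hm => ?_⟩
    · obtain ⟨B, hB, hB5⟩ := Finset.exists_subset_card_eq hA
      refine Finset.eq_univ_of_forall fun x => ?_
      have hx : x ∈ sumsStar (ZMod 10) B := by rw [h1 B (fun h => h0 (hB h)) hB5]; simp
      exact Finset.image_subset_image
        (Finset.erase_subset_erase _ (Finset.powerset_mono.2 hB)) hx
    · by_contra h
      exact h2 (hm _ (by decide) (le_trans (by omega) (show 4 ≤ _ by decide)))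
  exact ⟨{1, 3, 4, 8}, ⟨by decide, by rw [h3]; decide, h2⟩, fun h => h.2.2 (by decide +kernel)⟩

end Pool.Agent.Results.MP_71efc4_nt.Counter
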